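import Pool.Agent.Y819.ZF.Stm

/-!
Project ZF (MP_2f9829_co): a zero forcing set gives a forcing process with chains.
-/

set_option autoImplicit false

namespace Pool.Agent.Y429.ZF.CHAIN

open Finset Pool.Agent.H604R2.LEC Pool.Agent.Y819.ZF

theorem forced_mono {V : Type} {F : SimpleGraph V} {S T : Set V} (h : S ⊆ T) {v : V}
    (hv : Forced F S v) : Forced F T v := by
  induction hv with
  | mem v hv => exact Forced.mem v (h hv)
  | force x u _ hxu _ ih1 ih2 => exact Forced.force x u ih1 hxu ih2

theorem gen (V : Type) [DecidableEq V] (f : ℕ) (F : SimpleGraph V) : ∀ (k : ℕ) (Z : Finset V)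
    (h : Fin f → V), Z.card = k → Function.Injective h → (∀ c, h c ∉ Z) →
    (∀ v, v ∉ Z → (∀ c, h c ≠ v) → ∀ w ∈ Z, ¬ F.Adj v w) →
    (∀ v, Forced F {v | v ∉ Z} v) → ∃ m : Ed f → ℕ, Forces F Z h m := by
  intro k
  induction k with
  | zero =>
    intro Z h hk _ _ _ _
    rw [Finset.card_eq_zero] at hk
    subst hk
    exact ⟨_, Forces.done h⟩
  | succ k ih =>
    intro Z h hk hinj hout hinv hfor
    have hne : Z.Nonempty := by
      rw [← Finset.card_pos, hk]; omega
    obtain ⟨x, hx, u, hu, hxu, huniq⟩ : ∃ x, x ∉ Z ∧ ∃ u ∈ Z, F.Adj x u ∧
        ∀ w, F.Adj x w → w ≠ u → w ∉ Z := by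
      by_contra hcon
      push Not at hcon
      have key : ∀ v, Forced F {v | v ∉ Z} v → v ∉ Z := by
        intro v hv
        induction hv with
        | mem v hv => exact hv
        | force x u _ hxu _ ih1 ih2 =>
          intro hu
          obtain ⟨w, hw1, hw2, hw3⟩ := hcon x ih1 u hu hxu
          exact ih2 w hw1 hw2 hw3
      obtain ⟨v, hv⟩ := hne
      exact key v (hfor v) hv
    obtain ⟨c, rfl⟩ : ∃ c, h c = x := by
      by_contra hcon
      push Not at hcon
      exact hinv x hx hcon u hu hxu
    have hu' : ∀ c', h c' ≠ u := fun c' h' => hout c' (h' ▸ hu)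
    obtain ⟨m, hm⟩ := ih (Z.erase u) (Function.update h c u) (by
        rw [Finset.card_erase_of_mem hu, hk]; omega) (by
        intro a b hab
        by_cases ha : a = c
        · by_cases hb : b = c
          · rw [ha, hb]
          · rw [ha, Function.update_self, Function.update_of_ne hb] at hab
            exact absurd hab.symm (hu' b)
        · by_cases hb : b = c
          · rw [hb, Function.update_self, Function.update_of_ne ha] at hab
            exact absurd hab (hu' a)
          · rw [Function.update_of_ne ha, Function.update_of_ne hb] at hab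
            exact hinj hab) (by
        intro a ha
        by_cases hac : a = c
        · rw [hac, Function.update_self] at ha
          exact Finset.notMem_erase u Z ha
        · rw [Function.update_of_ne hac] at ha
          exact hout a (Finset.mem_of_mem_erase ha)) (by
        intro v hv hvh w hw hadj
        have hwZ := Finset.mem_of_mem_erase hw
        have hwu := Finset.ne_of_mem_erase hw
        have hvu : v ≠ u := by
          intro h'
          apply hvh c
          rw [Function.update_self, h']
        have hvZ : v ∉ Z := fun h' => hv (Finset.mem_erase.2 ⟨hvu, h'⟩)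
        by_cases hvc : v = h c
        · rw [hvc] at hadj
          exact huniq w hadj hwu hwZ
        · refine hinv v hvZ ?_ w hwZ hadj
          intro c' hc'
          by_cases hcc : c' = c
          · rw [hcc] at hc'
            exact hvc hc'.symm
          · apply hvh c'
            rw [Function.update_of_ne hcc]
            exact hc') (by
        intro v
        refine forced_mono ?_ (hfor v)
        intro w hw hw'
        exact hw (Finset.mem_of_mem_erase hw'))
    refine ⟨_, Forces.step Z h c u m hu hxu ?_ hm⟩
    intro z hz hadj
    by_contra hzu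
    exact huniq z hadj hzu hz

theorem main : S_CHAIN := by
  intro V _ f F Z h hinj hZ hfor
  refine gen V f F Z.card Z h rfl hinj (fun c => (hZ _).2 ⟨c, rfl⟩) ?_ hfor
  intro v hv hvh
  obtain ⟨c, hc⟩ := (hZ v).1 hv
  exact absurd hc (hvh c)

end Pool.Agent.Y429.ZF.CHAIN
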