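import Pool.Agent.Y819.ZF.Stm

/-!
Project ZF (MP_2f9829_co): Lagrange interpolation.
-/

set_option autoImplicit false

namespace Pool.Agent.Y429.ZF.LAG

open Finset Pool.Agent.Y819.ZF

theorem main : S_LAG := by
  intro n Z K _ s hs g hg t
  have h1 := Lagrange.eq_interpolate (s := Z) (v := s) hs.injOn hg
  conv_rhs => rw [h1]
  rw [Lagrange.interpolate_apply, Polynomial.eval_finsetSum]
  refine Finset.sum_congr rfl fun i _ => ?_
  rw [Polynomial.eval_mul, Polynomial.eval_C, mul_comm]
  congr 1
  rw [Lagrange.basis, Polynomial.eval_prod, ← Finset.prod_div_distrib]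
  refine Finset.prod_congr rfl fun z _ => ?_
  simp only [Lagrange.basisDivisor, Polynomial.eval_mul, Polynomial.eval_C, Polynomial.eval_sub,
    Polynomial.eval_X]
  rw [div_eq_mul_inv, mul_comm]

end Pool.Agent.Y429.ZF.LAG
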