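import Pool.Agent.Y819.ZF.Stm

/-!
Project ZF (MP_2f9829_co): multilinear coefficient after the substitution of sums of disjoint sets
of variables.
-/

set_option autoImplicit false

namespace Pool.Agent.Y429.ZF.SUB

open MvPolynomial Finset Pool.Agent.H604R2.LEC Pool.Agent.Y819.ZF

open Classical in
noncomputable def Ph (R : Type) [CommRing R] {K E : Type} [Fintype E] (κ : E → K) :
    MvPolynomial K R →ₐ[R] MvPolynomial E R :=
  aeval (fun k => ∑ e ∈ univ.filter (fun e => κ e = k), (X e : MvPolynomial E R))

open Classical in
theorem pderiv_Ph {R : Type} [CommRing R] {K E : Type} [Fintype E] (κ : E → K) (e : E)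
    (g : MvPolynomial K R) : pderiv e (Ph R κ g) = Ph R κ (pderiv (κ e) g) := by
  induction g using MvPolynomial.induction_on with
  | C a =>
    rw [pderiv_C, map_zero]
    have : Ph R κ (C a) = C a := by
      rw [Ph, aeval_C]; rfl
    rw [this, pderiv_C]
  | add p q hp hq => rw [map_add, map_add, map_add, map_add, hp, hq]
  | mul_X p k hp =>
    rw [map_mul, pderiv_mul, pderiv_mul, map_add, map_mul, map_mul, hp]
    congr 2
    have e1 : Ph R κ (X k) = ∑ e ∈ univ.filter (fun e => κ e = k), (X e : MvPolynomial E R) := by
      rw [Ph, aeval_X]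
    rw [e1, map_sum, pderiv_X]
    have e2 : ∀ e' ∈ univ.filter (fun e => κ e = k), pderiv e (X e' : MvPolynomial E R) =
        if e' = e then 1 else 0 := by
      intro e' _
      rw [pderiv_X, Pi.single_apply]
    rw [Finset.sum_congr rfl e2, Finset.sum_ite_eq' , Pi.single_apply]
    simp only [mem_filter, mem_univ, true_and]
    by_cases h : κ e = k
    · rw [if_pos h, if_pos h.symm, map_one]
    · rw [if_neg h, if_neg (fun h' => h h'.symm), map_zero]

theorem coeff_zero_Ph {R : Type} [CommRing R] {K E : Type} [Fintype E] (κ : E → K)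
    (g : MvPolynomial K R) : coeff 0 (Ph R κ g) = coeff 0 g := by
  classical
  have h : (constantCoeff : MvPolynomial E R →+* R).comp (Ph R κ).toRingHom =
      (constantCoeff : MvPolynomial K R →+* R) := by
    apply MvPolynomial.ringHom_ext
    · intro r
      show constantCoeff (Ph R κ (C r)) = _
      rw [Ph, aeval_C]
      simp
    · intro k
      show constantCoeff (Ph R κ (X k)) = _
      rw [Ph, aeval_X, map_sum, constantCoeff_X]
      apply Finset.sum_eq_zero
      intro e _
      rw [constantCoeff_X]
  have := congrArg (fun φ => φ g) h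
  exact this

open Classical in
/-- indicator -/
noncomputable def ind {E : Type} [Fintype E] (s : Finset E) : E →₀ ℕ :=
  Finsupp.equivFunOnFinite.symm fun e => if e ∈ s then 1 else 0

open Classical in
/-- sizes of the fibres -/
noncomputable def nu {K E : Type} [Fintype K] (κ : E → K) (s : Finset E) : K →₀ ℕ :=
  Finsupp.equivFunOnFinite.symm fun k => (s.filter (fun e => κ e = k)).card

theorem ind_self {E : Type} [Fintype E] {s : Finset E} {e : E} (he : e ∉ s) : ind s e = 0 := by
  classical
  show (if e ∈ s then 1 else 0) = 0
  rw [if_neg he]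

theorem ind_mem {E : Type} [Fintype E] {s : Finset E} {e : E} (he : e ∈ s) : ind s e = 1 := by
  classical
  show (if e ∈ s then 1 else 0) = 1
  rw [if_pos he]

theorem ind_insert {E : Type} [Fintype E] [DecidableEq E] {s : Finset E} {e : E} (he : e ∉ s) :
    ind (insert e s) = ind s + Finsupp.single e 1 := by
  ext e'
  rw [Finsupp.add_apply, Finsupp.single_apply]
  by_cases h : e = e'
  · subst h
    rw [ind_mem (Finset.mem_insert_self e s), ind_self he, if_pos rfl]
  · rw [if_neg h, add_zero]
    by_cases h' : e' ∈ s
    · rw [ind_mem (Finset.mem_insert_of_mem h'), ind_mem h']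
    · have : e' ∉ insert e s := by
        rw [Finset.mem_insert, not_or]
        exact ⟨fun h2 => h h2.symm, h'⟩
      rw [ind_self this, ind_self h']

theorem nu_insert {K E : Type} [Fintype K] [DecidableEq E] (κ : E → K) {s : Finset E} {e : E}
    (he : e ∉ s) : nu κ (insert e s) = nu κ s + Finsupp.single (κ e) 1 := by
  classical
  ext k
  rw [Finsupp.add_apply, Finsupp.single_apply]
  show ((insert e s).filter (fun e => κ e = k)).card = (s.filter (fun e => κ e = k)).card + _
  rw [Finset.filter_insert]
  by_cases h : κ e = k
  · rw [if_pos h, if_pos h, Finset.card_insert_of_notMem]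
    intro h'
    exact he (Finset.mem_filter.1 h').1
  · rw [if_neg h, if_neg h, add_zero]

theorem main_ind {R : Type} [CommRing R] {K E : Type} [Fintype K] [Fintype E] (κ : E → K)
    (s : Finset E) : ∀ g : MvPolynomial K R, coeff (ind s) (Ph R κ g) =
      (((∏ k, (nu κ s k).factorial : ℕ)) : R) * coeff (nu κ s) g := by
  classical
  induction s using Finset.induction_on with
  | empty =>
    intro g
    have h1 : ind (∅ : Finset E) = 0 := by
      ext e; exact ind_self (Finset.notMem_empty e)
    have h2 : nu κ (∅ : Finset E) = 0 := by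
      ext k
      show ((∅ : Finset E).filter (fun e => κ e = k)).card = 0
      simp
    rw [h1, h2, coeff_zero_Ph]
    simp
  | insert e s he ih =>
    intro g
    have h1 : coeff (ind s + Finsupp.single e 1) (Ph R κ g) = coeff (ind s) (pderiv e (Ph R κ g)) := by
      rw [coeff_pderiv, ind_self he]; simp
    rw [ind_insert he, h1, pderiv_Ph, ih, coeff_pderiv, nu_insert κ he]
    have h2 : ∏ k, ((nu κ s + Finsupp.single (κ e) 1 : K →₀ ℕ) k).factorial =
        (nu κ s (κ e) + 1) * ∏ k, (nu κ s k).factorial := by
      rw [← Finset.mul_prod_erase univ _ (mem_univ (κ e)),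
        ← Finset.mul_prod_erase univ (fun k => (nu κ s k).factorial) (mem_univ (κ e))]
      have h3 : ∏ x ∈ univ.erase (κ e), ((nu κ s + Finsupp.single (κ e) 1 : K →₀ ℕ) x).factorial =
          ∏ x ∈ univ.erase (κ e), ((nu κ s) x).factorial := by
        refine Finset.prod_congr rfl fun k hk => ?_
        have : κ e ≠ k := (Finset.ne_of_mem_erase hk).symm
        rw [Finsupp.add_apply, Finsupp.single_apply, if_neg this, add_zero]
      rw [h3, Finsupp.add_apply, Finsupp.single_apply, if_pos rfl, Nat.factorial_succ, mul_assoc]
    rw [h2]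
    push_cast
    ring

theorem main : S_SUB := by
  classical
  intro R _ K E _ _ κ g
  have h1 : oneE E = ind (univ : Finset E) := by
    ext e
    show 1 = if e ∈ (univ : Finset E) then 1 else 0
    simp
  have := main_ind κ (univ : Finset E) g
  rw [h1]
  exact this

end Pool.Agent.Y429.ZF.SUB
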